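import Pool.Agent.H815.QC.Stm

set_option autoImplicit false

/-! Project QC (helper815), task D4 (helper457): standard subgroups of independent sets are free products. -/

namespace Pool.Agent.H457.QC

open Pool.Agent.H815.QC Pool.Agent.Y110.FJ Pool.Agent.T2H65.GP Monoid

section

variable (A : Type) [Group A]

/-- the letter `a` of the factor `i` -/
def ofc {I : Type} (i : I) (a : A) : CoprodI (fun _ : I => A) :=
  CoprodI.of (M := fun _ : I => A) (i := i) a

/-- the letter `a` of the vertex group `w` -/
noncomputable def ofg {W : Type} (Λ : SimpleGraph W) (w : W) (a : A) : GrP Λ (fun _ : W => A) :=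
  GrP.of Λ (fun _ : W => A) w a

/-- a graph product without commutation relations is a free product -/
noncomputable def eqv {W I : Type} (Λ : SimpleGraph W) (h : ∀ v w, ¬ Λ.Adj v w) (e : W ≃ I) :
    GrP Λ (fun _ : W => A) ≃* CoprodI (fun _ : I => A) :=
  MonoidHom.toMulEquiv
    (glift (fun w => CoprodI.of (M := fun _ : I => A) (i := e w))
      (fun v w hvw => absurd hvw (h v w)))
    (CoprodI.lift fun i => GrP.of Λ (fun _ : W => A) (e.symm i))
    (by
      apply ghom_ext
      intro v b
      rw [MonoidHom.comp_apply, glift_of, CoprodI.lift_of, MonoidHom.id_apply]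
      show ofg A Λ (e.symm (e v)) b = ofg A Λ v b
      rw [e.symm_apply_apply])
    (by
      apply CoprodI.ext_hom
      intro i
      ext b : 1
      rw [MonoidHom.comp_apply, MonoidHom.comp_apply, CoprodI.lift_of, glift_of,
        MonoidHom.comp_apply, MonoidHom.id_apply]
      show ofc A (e (e.symm i)) b = ofc A i b
      rw [e.apply_symm_apply])

/-- standard subgroups of independent sets, equal vertex groups -/
theorem std_ind {V : Type} [Finite V] (Λ : SimpleGraph V) (S : V → Prop) (hS : Ind Λ S) :
    Nonempty (std Λ (fun _ => A) S ≃*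
      CoprodI fun _ : Fin (Nat.card {v // S v}) => A) := by
  have e1 : GrPs Λ (fun _ : V => A) S ≃* std Λ (fun _ => A) S :=
    MonoidHom.ofInjective (inc_inj Λ (fun _ : V => A) S)
  have e2 := eqv A (Λ.comap (Subtype.val : {v // S v} → V)) (fun v w h => hS v.1 w.1 v.2 w.2 h)
    (Finite.equivFin {v // S v})
  exact ⟨e1.symm.trans e2⟩

end

theorem D4_proof : Pool.Agent.H815.QC.S_D4 := by
  intro V _ Λ S hS
  exact std_ind (Multiplicative (ZMod 2)) Λ S hS

end Pool.Agent.H457.QC
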